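import Mathlib

/-! Removal lemmas for the dimension of finite posets. -/

namespace Pool.Agent.MP_cfa48c_co.H41

open Finset

variable {α : Type} [Fintype α] [PartialOrder α]

/-- the order on `S` is the intersection of `t` weak orders -/
def Rz (S : Set α) (t : ℕ) : Prop :=
  ∃ f : Fin t → α → ℕ, ∀ a ∈ S, ∀ b ∈ S, (a ≤ b ↔ ∀ i, f i a ≤ f i b)

/-- the pair is removable -/
def Rem (x y : α) : Prop := ∀ t : ℕ, 1 ≤ t → Rz ({x, y}ᶜ : Set α) t → Rz (Set.univ : Set α) (t + 1)

omit [PartialOrder α] in
lemma exists_rank {γ : Type} [LinearOrder γ] (k : α → γ) :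
    ∃ r : α → ℕ, ∀ a b, r a ≤ r b ↔ k a ≤ k b := by
  classical
  refine ⟨fun a => (univ.filter fun c => k c < k a).card, fun a b => ⟨fun h => ?_, fun h => ?_⟩⟩
  · by_contra hk
    push Not at hk
    refine absurd h (not_le.2 (card_lt_card ⟨fun c hc => ?_, fun hs => ?_⟩))
    · simp only [mem_filter, mem_univ, true_and] at hc ⊢
      exact hc.trans hk
    · simpa using hs (show b ∈ univ.filter fun c => k c < k a by simpa using hk)
  · refine card_le_card fun c hc => ?_
    simp only [mem_filter, mem_univ, true_and] at hc ⊢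
    exact hc.trans_le h

lemma realize {t : ℕ} {β : Type} [LinearOrder β] (h : Option (Fin t) → α → β)
    (hm : ∀ i, Monotone (h i)) (hs : ∀ a b, ¬ a ≤ b → ¬ b ≤ a → ∃ i, h i b < h i a) :
    ∃ g : Fin (t + 1) → α → ℕ, (∀ i, Function.Injective (g i)) ∧
      ∀ a b : α, (a ≤ b ↔ ∀ i, g i a ≤ g i b) := by
  let k : Option (Fin t) → α → β ×ₗ LinearExtension α :=
    fun i a => toLex (h i a, toLinearExtension a)
  have hk : ∀ i a b, a ≤ b → k i a ≤ k i b := fun i a b hab =>
    Prod.Lex.toLex_mono ⟨hm i hab, toLinearExtension.monotone hab⟩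
  have hinj : ∀ i a b, k i a = k i b → a = b := fun i a b hab =>
    congrArg (fun p => (ofLex p).2) hab
  choose r hr using fun i => exists_rank (k i)
  refine ⟨fun i => r (finSuccEquiv t i), fun i a b hab => ?_, fun a b => ⟨fun hab i => ?_, ?_⟩⟩
  · exact hinj _ a b (le_antisymm ((hr _ a b).1 hab.le) ((hr _ b a).1 hab.ge))
  · exact (hr _ a b).2 (hk _ a b hab)
  · intro hg
    have hg' : ∀ i, k i a ≤ k i b := fun i => by
      have := hg ((finSuccEquiv t).symm i)
      simp only [Equiv.apply_symm_apply] at this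
      exact (hr i a b).1 this
    by_contra hab
    by_cases hba : b ≤ a
    · exact hab (hinj none a b (le_antisymm (hg' none) (hk none b a hba))).le
    · obtain ⟨i, hi⟩ := hs a b hab hba
      exact absurd (hg' i) (not_le.2 (Prod.Lex.toLex_lt_toLex.2 (Or.inl hi)))

lemma rz_of {t : ℕ} {β : Type} [LinearOrder β] (h : Option (Fin t) → α → β)
    (hm : ∀ i, Monotone (h i)) (hs : ∀ a b, ¬ a ≤ b → ¬ b ≤ a → ∃ i, h i b < h i a) :
    Rz (Set.univ : Set α) (t + 1) := by
  obtain ⟨g, -, hg⟩ := realize h hm hs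
  exact ⟨g, fun a _ b _ => hg a b⟩

lemma Rz.dual {S : Set α} {t : ℕ} (h : Rz S t) : Rz (α := αᵒᵈ) S t := by
  obtain ⟨f, hf⟩ := h
  choose r hr using fun i => exists_rank (fun a => OrderDual.toDual (f i a))
  refine ⟨r, fun a ha b hb => (hf b hb a ha).trans (forall_congr' fun i => ?_)⟩
  exact (hr i a b).symm

lemma Rem.of_dual {x y : α} (h : Rem (α := αᵒᵈ) x y) : Rem x y :=
  fun t ht hz => (h t ht hz.dual).dual

/-- from removability to the format of the problem -/
lemma Rem.final {x y : α} (h : Rem x y) (t : ℕ) (ht : 1 ≤ t)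
    (hf : ∃ f : Fin t → α → ℕ, (∀ i, Set.InjOn (f i) ({x, y}ᶜ : Set α)) ∧
      ∀ a ∈ ({x, y}ᶜ : Set α), ∀ b ∈ ({x, y}ᶜ : Set α), (a ≤ b ↔ ∀ i, f i a ≤ f i b)) :
    ∃ g : Fin (t + 1) → α → ℕ, (∀ i, Function.Injective (g i)) ∧
      ∀ a b : α, (a ≤ b ↔ ∀ i, g i a ≤ g i b) := by
  obtain ⟨f, -, hf⟩ := hf
  obtain ⟨g, hg⟩ := h t ht ⟨f, hf⟩
  refine realize (fun i => g ((finSuccEquiv t).symm i))
    (fun i a b hab => (hg a trivial b trivial).1 hab _) fun a b hab _ => ?_
  rw [hg a trivial b trivial] at hab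
  push Not at hab
  obtain ⟨i, hi⟩ := hab
  exact ⟨finSuccEquiv t i, by simpa using hi⟩

/-- one linear extension is split into two along two level functions -/
lemma rem_split {x y : α} (l₁ l₂ : α → ℕ) (h₁ : Monotone l₁) (h₂ : Monotone l₂)
    (hxy : ∀ a b, ¬ a ≤ b → ¬ b ≤ a → (a = x ∨ a = y ∨ b = x ∨ b = y) → l₁ b < l₁ a ∨ l₂ b < l₂ a)
    (hS : ∀ a b, ¬ a ≤ b → ¬ b ≤ a → l₁ b ≤ l₁ a ∨ l₂ b ≤ l₂ a) : Rem x y := by
  classical
  rintro t ht ⟨f, hf⟩
  let E : Fin t → α → ℕ := fun i z =>
    (univ.filter fun d => d ≤ z ∧ d ∈ ({x, y}ᶜ : Set α)).sup (f i)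
  have hE : ∀ i, Monotone (E i) := fun i a b hab => sup_mono fun d hd => by
    simp only [mem_filter, mem_univ, true_and] at hd ⊢
    exact ⟨hd.1.trans hab, hd.2⟩
  have hE' : ∀ i, ∀ z ∈ ({x, y}ᶜ : Set α), E i z = f i z := fun i z hz => by
    refine le_antisymm (Finset.sup_le fun d hd => ?_) (le_sup (f := f i) (by simpa using hz))
    simp only [mem_filter, mem_univ, true_and] at hd
    exact (hf d hd.2 z hz).1 hd.1 i
  let i₀ : Fin t := ⟨0, ht⟩
  let l : Option (Fin t) → α → ℕ := fun o => o.elim l₁ fun i => if i = i₀ then l₂ else fun _ => 0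
  have hl : ∀ o, Monotone (l o) := by
    rintro (_ | i)
    · exact h₁
    · by_cases hi : i = i₀
      · simpa [l, hi] using h₂
      · simpa [l, hi] using monotone_const
  have e₂ : l (some i₀) = l₂ := by simp [l]
  refine rz_of (fun o z => toLex (l o z, E (o.getD i₀) z))
    (fun o a b hab => Prod.Lex.toLex_mono ⟨hl o hab, hE _ hab⟩) fun a b hab hba => ?_
  by_cases hm : a = x ∨ a = y ∨ b = x ∨ b = y
  · rcases hxy a b hab hba hm with h | h
    · exact ⟨none, Prod.Lex.toLex_lt_toLex.2 (Or.inl h)⟩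
    · exact ⟨some i₀, Prod.Lex.toLex_lt_toLex.2 (Or.inl (by rw [e₂]; exact h))⟩
  · push Not at hm
    have ha : a ∈ ({x, y}ᶜ : Set α) := by simp [hm.1, hm.2.1]
    have hb : b ∈ ({x, y}ᶜ : Set α) := by simp [hm.2.2.1, hm.2.2.2]
    have h3 := hab
    rw [hf a ha b hb] at h3
    push Not at h3
    obtain ⟨i, hi⟩ := h3
    rw [← hE' i a ha, ← hE' i b hb] at hi
    have key : ∀ o : Option (Fin t), o.getD i₀ = i → l o b ≤ l o a →
        toLex (l o b, E (o.getD i₀) b) < toLex (l o a, E (o.getD i₀) a) := fun o ho h => by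
      rw [Prod.Lex.toLex_lt_toLex, ho]
      exact h.lt_or_eq.imp id fun h' => ⟨h', hi⟩
    by_cases hi₀ : i = i₀
    · rcases hS a b hab hba with h | h
      · exact ⟨none, key none hi₀.symm h⟩
      · exact ⟨some i₀, key _ hi₀.symm (by rw [e₂]; exact h)⟩
    · exact ⟨some i, key _ rfl (by simp [l, hi₀])⟩

/-- two points with the same strict down-set and nested up-sets form a removable pair -/
lemma rem_twin {v y : α} (hne : v ≠ y) (hD : ∀ d, d < v ↔ d < y) (hU : ∀ q, v < q → y < q) :
    Rem v y := by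
  classical
  have hvy : ¬ v < y := fun h => lt_irrefl _ ((hD v).2 h)
  have hyv : ¬ y < v := fun h => lt_irrefl _ ((hD y).1 h)
  refine rem_split (fun z => if z < y then 0 else if z = v then 1 else if z = y then 2 else 3)
    (fun z => if z = y then 1 else if z = v then 3 else if v < z then 4 else if y < z then 2 else 0)
    ?_ ?_ ?_ ?_
  · intro a b hab
    rcases hab.eq_or_lt with rfl | hab
    · exact le_rfl
    · have h1 : b < y → a < y := hab.trans
      have h2 := hD a
      dsimp only
      split_ifs <;> first | omega | (subst_vars; tauto)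
  · intro a b hab
    rcases hab.eq_or_lt with rfl | hab
    · exact le_rfl
    · have h1 : v < a → v < b := fun h => h.trans hab
      have h2 : y < a → y < b := fun h => h.trans hab
      have h3 := hD a
      have h4 := hU a
      have h5 : y < a → ¬ a < y := fun h => h.asymm
      have h6 := lt_irrefl a
      dsimp only
      split_ifs <;> first | omega | (subst_vars; tauto)
  · intro a b hab hba hm
    have h1 : ¬ a < b := fun h => hab h.le
    have h2 : ¬ b < a := fun h => hba h.le
    have h3 : a ≠ b := fun h => hab h.le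
    have h4 := hD a
    have h5 := hU b
    have h6 := lt_irrefl y
    rcases hm with rfl | rfl | rfl | rfl
    · right
      split_ifs <;> first | omega | (subst_vars; tauto)
    · split_ifs <;> first | omega | (subst_vars; tauto)
    · left
      split_ifs <;> first | omega | (subst_vars; tauto)
    · split_ifs <;> first | omega | (subst_vars; tauto)
  · intro a b hab hba
    by_cases h1 : a < y
    · right
      have h2 : ¬ y < b := fun h => hab (h1.trans h).le
      have h3 : ¬ v < b := fun h => h2 (hU b h)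
      have h4 : b ≠ y := fun h => hab (h ▸ h1.le)
      have h5 : b ≠ v := fun h => hab (h ▸ ((hD a).2 h1).le)
      simp [h2, h3, h4, h5]
    · by_cases h2 : a = v
      · right
        have h3 : ¬ v < b := fun h => hab (h2 ▸ h.le)
        subst h2
        split_ifs <;> first | omega | tauto
      · by_cases h3 : a = y
        · by_cases h4 : b = v
          · left
            subst h3 h4
            simp [hvy, hne.symm]
          · right
            have h5 : ¬ y < b := fun h => hab (h3 ▸ h.le)
            have h6 : ¬ v < b := fun h => h5 (hU b h)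
            have h7 : b ≠ y := fun h => hab (h3.trans h.symm).le
            simp [h4, h5, h6, h7]
        · left
          simp only [h1, h2, h3, if_false]
          split_ifs <;> omega

end Pool.Agent.MP_cfa48c_co.H41
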