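import Pool.Agent.MP_cfa48c_co.H41.Basic

/-! A point inserted as low as possible and a point inserted as high as possible. -/

namespace Pool.Agent.MP_cfa48c_co.H41

variable {α : Type} [Fintype α] [PartialOrder α]

lemma cast_succ_lt {m n : ℕ} (h : m < n) : (m : ℕ∞) + 1 < (n : ℕ∞) + 1 := by
  exact_mod_cast Nat.succ_lt_succ h

lemma cast_succ_le {m n : ℕ} (h : m ≤ n) : (m : ℕ∞) + 1 ≤ (n : ℕ∞) + 1 := by
  exact_mod_cast Nat.succ_le_succ h

omit [Fintype α] in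
lemma exists_new {x y : α} (hZ : x ≤ y → ∀ z, (z ≤ x ∨ x ≤ z) ∨ (z ≤ y ∨ y ≤ z)) :
    ∃ s : α → ℕ∞, Monotone s ∧ (∀ b, ¬ x ≤ b → ¬ b ≤ x → s b < s x) ∧
      ∀ a, ¬ a ≤ y → ¬ y ≤ a → s y < s a := by
  classical
  refine ⟨fun z => if z ≤ y ∧ ¬ x ≤ z then 0 else if x ≤ z ∧ ¬ z ≤ y then 2 else 1, ?_, ?_, ?_⟩
  · intro a b hab
    have h1 : b ≤ y → a ≤ y := hab.trans
    have h2 : x ≤ a → x ≤ b := fun h => h.trans hab
    dsimp only
    split_ifs <;> tauto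
  · intro b hab hba
    have h2 : x ≤ y → b ≤ y := fun h => by
      rcases hZ h b with (h3 | h3) | h3 | h3
      exacts [absurd h3 hba, absurd h3 hab, h3, absurd (h.trans h3) hab]
    simp only [le_refl]
    split_ifs <;> tauto
  · intro a hab hba
    have h2 : x ≤ y → x ≤ a := fun h => by
      rcases hZ h a with (h3 | h3) | h3 | h3
      exacts [absurd (h3.trans h) hab, h3, absurd h3 hab, absurd h3 hba]
    simp only [le_refl]
    split_ifs <;> tauto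

lemma rem_free {x y : α} (hxy : x ≠ y)
    (HX : (∀ d, ¬ d < x) ∨ ∀ u, ¬ u ≤ x → ¬ x ≤ u →
      ∃ w, w ≠ x ∧ w ≠ y ∧ (∀ d, d < x → d ≤ w) ∧ ¬ u ≤ w)
    (HY : (∀ q, ¬ y < q) ∨ ∀ v, ¬ y ≤ v → ¬ v ≤ y →
      ∃ w, w ≠ y ∧ w ≠ x ∧ (∀ q, y < q → w ≤ q) ∧ ¬ w ≤ v)
    (hZ : x ≤ y → ∀ z, (z ≤ x ∨ x ≤ z) ∨ (z ≤ y ∨ y ≤ z)) : Rem x y := by
  classical
  rintro t ht ⟨f, hf⟩
  have hmem : ∀ {z : α}, z ≠ x → z ≠ y → z ∈ ({x, y}ᶜ : Set α) := fun h1 h2 => by simp [h1, h2]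
  have fm : ∀ i {a b : α}, a ≠ x → a ≠ y → b ≠ x → b ≠ y → a ≤ b → f i a ≤ f i b :=
    fun i a b h1 h2 h3 h4 hab => (hf a (hmem h1 h2) b (hmem h3 h4)).1 hab i
  have fs : ∀ {a b : α}, a ≠ x → a ≠ y → b ≠ x → b ≠ y → ¬ a ≤ b → ∃ i, f i b < f i a := by
    intro a b h1 h2 h3 h4 hab
    rw [hf a (hmem h1 h2) b (hmem h3 h4)] at hab
    push Not at hab
    exact hab
  let hi : Fin t → ℕ∞ := fun i => ⨅ q : {q // y < q ∧ q ≠ x}, (f i q : ℕ∞) + 1
  let F : Fin t → α → ℕ∞ := fun i z => if z = y then hi i else (f i z : ℕ∞) + 1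
  let lo : Fin t → ℕ∞ := fun i => ⨆ d : {d // d < x}, F i d
  let G : Fin t → α → ℕ∞ := fun i z => if z = x then lo i else F i z
  have Fy : ∀ i, F i y = hi i := fun i => if_pos rfl
  have Fo : ∀ i {z}, z ≠ y → F i z = (f i z : ℕ∞) + 1 := fun i z h => if_neg h
  have Gx : ∀ i, G i x = lo i := fun i => if_pos rfl
  have Go : ∀ i {z}, z ≠ x → G i z = F i z := fun i z h => if_neg h
  have hhi : ∀ i {w}, w ≠ x → w ≠ y → (∀ q, y < q → w ≤ q) → (f i w : ℕ∞) + 1 ≤ hi i :=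
    fun i w h1 h2 h3 => le_iInf fun q => cast_succ_le (fm i h1 h2 q.2.2 q.2.1.ne' (h3 q q.2.1))
  have Fm : ∀ i {a b}, a ≠ x → b ≠ x → a ≤ b → F i a ≤ F i b := by
    intro i a b ha hb hab
    rcases hab.eq_or_lt with rfl | hab'
    · exact le_rfl
    by_cases h1 : a = y
    · subst h1
      rw [Fy, Fo i hab'.ne']
      exact iInf_le (fun q : {q // a < q ∧ q ≠ x} => (f i q : ℕ∞) + 1) ⟨b, hab', hb⟩
    by_cases h2 : b = y
    · subst h2
      rw [Fy, Fo i h1]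
      exact hhi i ha h1 fun q hq => hab.trans hq.le
    · rw [Fo i h1, Fo i h2]
      exact cast_succ_le (fm i ha h1 hb h2 hab)
  have hlo : ∀ i {w}, w ≠ x → (∀ d, d < x → d ≤ w) → lo i ≤ F i w :=
    fun i w h1 h2 => iSup_le fun d => Fm i d.2.ne h1 (h2 d d.2)
  have Gm : ∀ i, Monotone (G i) := by
    intro i a b hab
    rcases hab.eq_or_lt with rfl | hab'
    · exact le_rfl
    by_cases h1 : a = x
    · subst h1
      rw [Gx, Go i hab'.ne']
      exact hlo i hab'.ne' fun d hd => hd.le.trans hab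
    by_cases h2 : b = x
    · subst h2
      rw [Gx, Go i h1]
      exact le_iSup (fun d : {d // d < b} => F i d) ⟨a, hab'⟩
    · rw [Go i h1, Go i h2]
      exact Fm i h1 h2 hab
  let i₀ : Fin t := ⟨0, ht⟩
  have lo0 : (∀ d, ¬ d < x) → ∀ i, lo i = 0 := fun h i =>
    le_antisymm (iSup_le fun d => absurd d.2 (h d)) zero_le
  have hitop : (∀ q, ¬ y < q) → ∀ i, hi i = ⊤ := fun h i =>
    le_antisymm le_top (le_iInf fun q => absurd q.2.1 (h q))
  have fin : ∀ n : ℕ, (n : ℕ∞) + 1 < ⊤ := fun n => by exact_mod_cast ENat.natCast_lt_top (n + 1)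
  have pos : ∀ n : ℕ, (0 : ℕ∞) < (n : ℕ∞) + 1 := fun n => by exact_mod_cast Nat.succ_pos n
  obtain ⟨s, sm, sx, sy⟩ := exists_new hZ
  refine rz_of (fun o => o.elim s G) (by rintro (_ | i); exacts [sm, Gm i]) fun a b hab hba => ?_
  by_cases h1 : a = x
  · subst h1
    exact ⟨none, sx b hab hba⟩
  by_cases h2 : b = y
  · subst h2
    exact ⟨none, sy a hab hba⟩
  suffices H : ∃ i, G i b < G i a by
    obtain ⟨i, hi⟩ := H
    exact ⟨some i, hi⟩
  by_cases h3 : b = x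
  · subst h3
    by_cases h4 : a = y
    · subst h4
      simp only [Gx, Go _ h1, Fy]
      have key : ∀ x' y', x' ≠ b → x' ≠ a → y' ≠ b → y' ≠ a → (∀ d, d < b → d ≤ x') →
          (∀ q, a < q → y' ≤ q) → ¬ y' ≤ x' → ∃ i, lo i < hi i := by
        intro x' y' e1 e2 e3 e4 e5 e6 e7
        obtain ⟨i, hi'⟩ := fs e3 e4 e1 e2 e7
        exact ⟨i, ((hlo i e1 e5).trans_eq (Fo i e2)).trans_lt
          ((cast_succ_lt hi').trans_le (hhi i e3 e4 e6))⟩
      rcases HX with HX | HX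
      · refine ⟨i₀, ?_⟩
        rw [lo0 HX]
        exact lt_of_lt_of_le zero_lt_one (le_iInf fun q => le_add_self)
      obtain ⟨x', e1, e2, e5, e8⟩ := HX a hab hba
      rcases HY with HY | HY
      · refine ⟨i₀, ?_⟩
        rw [hitop HY]
        exact ((hlo i₀ e1 e5).trans_eq (Fo i₀ e2)).trans_lt (fin _)
      obtain ⟨y', e4, e3, e6, e9⟩ := HY b hab hba
      by_cases e7 : y' ≤ x'
      · by_cases e10 : b ≤ y'
        · obtain ⟨y'', g1, g2, g3, g4⟩ := HY y' (fun h => e8 (h.trans e7))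
            (fun h => hba (e10.trans h))
          exact key y' y'' e3 e4 g2 g1 (fun d hd => hd.le.trans e10) g3 g4
        · obtain ⟨x'', g1, g2, g3, g4⟩ := HX y' e9 e10
          exact key x'' y' g1 g2 e3 e4 g3 e6 g4
      · exact key x' y' e1 e2 e3 e4 e5 e6 e7
    · simp only [Gx, Go _ h1, Fo _ h4]
      rcases HX with HX | HX
      · exact ⟨i₀, by rw [lo0 HX]; exact pos _⟩
      · obtain ⟨w, e1, e2, e3, e4⟩ := HX a hab hba
        obtain ⟨i, hi'⟩ := fs h1 h4 e1 e2 e4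
        exact ⟨i, ((hlo i e1 e3).trans_eq (Fo i e2)).trans_lt (cast_succ_lt hi')⟩
  · by_cases h4 : a = y
    · subst h4
      simp only [Go _ h1, Go _ h3, Fy, Fo _ h2]
      rcases HY with HY | HY
      · exact ⟨i₀, by rw [hitop HY]; exact fin _⟩
      · obtain ⟨w, e1, e2, e3, e4⟩ := HY b hab hba
        obtain ⟨i, hi'⟩ := fs e2 e1 h3 h2 e4
        exact ⟨i, (cast_succ_lt hi').trans_le (hhi i e2 e1 e3)⟩
    · simp only [Go _ h1, Go _ h3, Fo _ h2, Fo _ h4]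
      obtain ⟨i, hi'⟩ := fs h1 h4 h3 h2 hab
      exact ⟨i, cast_succ_lt hi'⟩

end Pool.Agent.MP_cfa48c_co.H41
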