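import Pool.Agent.MP_cfa48c_co.H41.Basic

/-! A minimal point and a point above it, both inserted as low as possible. -/

namespace Pool.Agent.MP_cfa48c_co.H41

open Finset

variable {α : Type} [Fintype α] [PartialOrder α]

lemma rem_low {a y : α} (ha : ∀ d, ¬ d < a) (hay : a < y)
    (HY : ∀ u, ¬ u ≤ y → ¬ y ≤ u → ∃ w, w ≠ y ∧ (∀ d, d < y → d ≠ a → d ≤ w) ∧ ¬ u ≤ w) :
    Rem a y := by
  classical
  rintro t ht ⟨f, hf⟩
  have hmem : ∀ {z : α}, z ≠ a → z ≠ y → z ∈ ({a, y}ᶜ : Set α) := fun h1 h2 => by simp [h1, h2]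
  have fm : ∀ i {p q : α}, p ≠ a → p ≠ y → q ≠ a → q ≠ y → p ≤ q → f i p ≤ f i q :=
    fun i p q h1 h2 h3 h4 hpq => (hf p (hmem h1 h2) q (hmem h3 h4)).1 hpq i
  have fs : ∀ {p q : α}, p ≠ a → p ≠ y → q ≠ a → q ≠ y → ¬ p ≤ q → ∃ i, f i q < f i p := by
    intro p q h1 h2 h3 h4 hpq
    rw [hf p (hmem h1 h2) q (hmem h3 h4)] at hpq
    push Not at hpq
    exact hpq
  let F : Fin t → α → ℕ := fun i z => if z = a then 0 else f i z + 1
  let lo : Fin t → ℕ := fun i => (univ.filter fun d => d < y).sup (F i)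
  let G : Fin t → α → ℕ := fun i z => if z = y then lo i else F i z
  have Fa : ∀ i, F i a = 0 := fun i => if_pos rfl
  have Fo : ∀ i {z}, z ≠ a → F i z = f i z + 1 := fun i z h => if_neg h
  have Gy : ∀ i, G i y = lo i := fun i => if_pos rfl
  have Go : ∀ i {z}, z ≠ y → G i z = F i z := fun i z h => if_neg h
  have Fm : ∀ i {p q}, p ≠ y → q ≠ y → p ≤ q → F i p ≤ F i q := by
    intro i p q hp hq hpq
    by_cases h1 : p = a
    · rw [h1, Fa]
      exact Nat.zero_le _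
    have h2 : q ≠ a := fun h => ha p (hpq.lt_of_ne (h ▸ h1) |>.trans_eq h)
    rw [Fo i h1, Fo i h2]
    exact Nat.succ_le_succ (fm i h1 hp h2 hq hpq)
  have hlo : ∀ i {w}, w ≠ y → (∀ d, d < y → d ≠ a → d ≤ w) → lo i ≤ F i w := by
    intro i w h1 h2
    refine Finset.sup_le fun d hd => ?_
    have hd' : d < y := by simpa using hd
    by_cases h3 : d = a
    · rw [h3, Fa]
      exact Nat.zero_le _
    · exact Fm i hd'.ne h1 (h2 d hd' h3)
  have Gm : ∀ i, Monotone (G i) := by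
    intro i p q hpq
    rcases hpq.eq_or_lt with rfl | hlt
    · exact le_rfl
    by_cases h1 : p = y
    · subst h1
      rw [Gy, Go i hlt.ne']
      exact hlo i hlt.ne' fun d hd _ => hd.le.trans hpq
    by_cases h2 : q = y
    · subst h2
      rw [Gy, Go i h1]
      exact Finset.le_sup (f := F i) (by simpa using hlt)
    · rw [Go i h1, Go i h2]
      exact Fm i h1 h2 hpq
  let s : α → ℕ := fun z => if y ≤ z then 2 else if a ≤ z then 1 else 0
  have sm : Monotone s := by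
    intro p q hpq
    have h1 : y ≤ p → y ≤ q := fun h => h.trans hpq
    have h2 : a ≤ p → a ≤ q := fun h => h.trans hpq
    simp only [s]
    split_ifs <;> first | omega | tauto
  let i₀ : Fin t := ⟨0, ht⟩
  refine rz_of (fun o => o.elim s G) (by rintro (_ | i); exacts [sm, Gm i]) fun p q hpq hqp => ?_
  by_cases h1 : p = y
  · subst h1
    refine ⟨none, ?_⟩
    simp only [Option.elim, s, le_refl, if_true, if_neg hpq]
    split_ifs <;> omega
  by_cases h2 : p = a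
  · subst h2
    refine ⟨none, ?_⟩
    have h3 : ¬ y ≤ q := fun h => hpq (hay.le.trans h)
    simp only [Option.elim, s, le_refl, if_true, if_neg hpq, if_neg h3, if_neg hay.not_ge]
    omega
  suffices H : ∃ i, G i q < G i p by
    obtain ⟨i, hi⟩ := H
    exact ⟨some i, hi⟩
  simp only [Go _ h1, Fo _ h2]
  by_cases h3 : q = y
  · subst h3
    obtain ⟨w, e1, e2, e3⟩ := HY p hpq hqp
    by_cases h4 : w = a
    · exact ⟨i₀, by rw [Gy]; have := hlo i₀ e1 e2; rw [h4, Fa] at this; omega⟩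
    · obtain ⟨i, hi⟩ := fs h2 h1 h4 e1 e3
      exact ⟨i, by rw [Gy]; have := hlo i e1 e2; rw [Fo i h4] at this; omega⟩
  by_cases h4 : q = a
  · exact ⟨i₀, by rw [Go _ h3, h4, Fa]; omega⟩
  · obtain ⟨i, hi⟩ := fs h2 h1 h4 h3 hpq
    exact ⟨i, by rw [Go _ h3, Fo _ h4]; omega⟩

lemma rem_high {a y : α} (ha : ∀ q, ¬ a < q) (hay : y < a)
    (HY : ∀ u, ¬ y ≤ u → ¬ u ≤ y → ∃ w, w ≠ y ∧ (∀ q, y < q → q ≠ a → w ≤ q) ∧ ¬ w ≤ u) :
    Rem a y := Rem.of_dual (rem_low (α := αᵒᵈ) ha hay HY)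

end Pool.Agent.MP_cfa48c_co.H41
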