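import Pool.Agent.MP_cfa48c_co.H41.Free

/-! Posets without tight points, and posets without an induced `W`, have a removable pair. -/

namespace Pool.Agent.MP_cfa48c_co.H41

open Finset

variable {α : Type} [Fintype α] [PartialOrder α]

/-- `x` is minimal or its strict down-set is cut out by principal down-sets of other points -/
def LF (x : α) : Prop :=
  (∀ d, ¬ d < x) ∨ ∀ u, ¬ u ≤ x → ¬ x ≤ u → ∃ w, w ≠ x ∧ (∀ d, d < x → d ≤ w) ∧ ¬ u ≤ w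

/-- the dual notion -/
def HF (x : α) : Prop :=
  (∀ q, ¬ x < q) ∨ ∀ v, ¬ x ≤ v → ¬ v ≤ x → ∃ w, w ≠ x ∧ (∀ q, x < q → w ≤ q) ∧ ¬ w ≤ v

lemma trouble (hall : ∀ z : α, LF z ∨ HF z) {x y : α} (hy : HF y) (hxy : ¬ x ≤ y)
    (hmin : ∀ y', HF y' → ¬ x ≤ y' → (Set.Ioi y).ncard ≤ (Set.Ioi y').ncard)
    (hT : ¬ ((∀ q, ¬ y < q) ∨ ∀ v, ¬ y ≤ v → ¬ v ≤ y →
      ∃ w, w ≠ y ∧ w ≠ x ∧ (∀ q, y < q → w ≤ q) ∧ ¬ w ≤ v)) :
    ∃ p q : α, p ≠ q ∧ Rem p q := by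
  rw [not_or] at hT
  obtain ⟨h0, hT⟩ := hT
  have hy' := hy.resolve_left h0
  push Not at hT
  obtain ⟨v, ⟨h1, h2, h3⟩, hmax⟩ := Set.Finite.exists_maximal (Set.toFinite
    {v | ¬ y ≤ v ∧ ¬ v ≤ y ∧ ∀ w, w ≠ y → w ≠ x → (∀ q, y < q → w ≤ q) → w ≤ v}) hT
  have hvy : v ≠ y := fun h => h2 h.le
  have hU : ∀ q, v < q → y < q := by
    intro q hq
    by_cases h4 : y ≤ q
    · exact h4.lt_of_ne fun h => h2 (h ▸ hq.le)
    · exact absurd (hmax ⟨h4, fun h => h2 (hq.le.trans h),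
        fun w e1 e2 e3 => (h3 w e1 e2 e3).trans hq.le⟩ hq.le) hq.not_ge
  have hD : ∀ d, d < y → d < v := fun d hd =>
    (h3 d hd.ne (fun h => hxy (h ▸ hd.le)) fun q hq => (hd.trans hq).le).lt_of_ne
      fun h => h2 (h ▸ hd.le)
  by_cases c1 : ∀ d, d < v → d < y
  · exact ⟨v, y, hvy, rem_twin hvy (fun d => ⟨c1 d, hD d⟩) hU⟩
  by_cases c2 : ∀ q, y < q → v < q
  · exact ⟨y, v, hvy.symm, Rem.of_dual
      (rem_twin (α := αᵒᵈ) hvy.symm (fun q => ⟨c2 q, hU q⟩) hD)⟩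
  push Not at c1 c2
  obtain ⟨d₀, hd₀, hd₁⟩ := c1
  obtain ⟨q₀, hq₀, hq₁⟩ := c2
  rcases hall v with hv | hv
  · refine ⟨v, y, hvy, rem_free hvy (hv.imp id fun hv u e1 e2 => ?_)
      (Or.inr fun u e1 e2 => ?_) fun h => absurd h h2⟩
    · obtain ⟨w, g1, g2, g3⟩ := hv u e1 e2
      refine ⟨w, g1, fun h => ?_, g2, g3⟩
      subst h
      exact hd₁ ((g2 d₀ hd₀).lt_of_ne fun h => h1 (h ▸ hd₀.le))
    · obtain ⟨w, g1, g2, g3⟩ := hy' u e1 e2
      refine ⟨w, g1, fun h => ?_, g2, g3⟩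
      subst h
      exact hq₁ ((g2 q₀ hq₀).lt_of_ne fun h => h1 (h ▸ hq₀.le))
  · exfalso
    have hx : ¬ x ≤ v := by
      obtain ⟨w, g1, g2, g3⟩ := hy' v h1 h2
      by_cases h : w = x
      · exact h ▸ g3
      · exact absurd (h3 w g1 h g2) g3
    exact absurd (hmin v hv hx) (not_le.2 (Set.ncard_lt_ncard
      ⟨fun q hq => hU q hq, fun h => hq₁ (h hq₀)⟩ (Set.toFinite _)))

lemma exists_min_le (z : α) : ∃ m, m ≤ z ∧ ∀ d, ¬ d < m := by
  obtain ⟨m, h1, h2⟩ := exists_minimal_le_of_wellFoundedLT (fun _ : α => True) z trivial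
  exact ⟨m, h1, fun d hd => hd.not_ge (h2.2 trivial hd.le)⟩

lemma exists_max_ge (z : α) : ∃ m, z ≤ m ∧ ∀ q, ¬ m < q := exists_min_le (α := αᵒᵈ) z

omit [PartialOrder α] in
lemma not_all_eq (h3 : 3 ≤ Fintype.card α) (a : α) : ¬ ∀ z, z = a := fun h => by
  have : Fintype.card α ≤ 1 := Fintype.card_le_one_iff.2 fun p q => (h p).trans (h q).symm
  omega

theorem rem_of_no_tight (h3 : 3 ≤ Fintype.card α) (hall : ∀ z : α, LF z ∨ HF z) :
    ∃ p q : α, p ≠ q ∧ Rem p q := by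
  by_cases hE : ∃ p : α × α, LF p.1 ∧ HF p.2 ∧ ¬ p.1 ≤ p.2
  · obtain ⟨⟨x, y⟩, ⟨hx, hy, hxy⟩, hmin⟩ := Set.exists_min_image
      {p : α × α | LF p.1 ∧ HF p.2 ∧ ¬ p.1 ≤ p.2}
      (fun p => (Set.Iio p.1).ncard + (Set.Ioi p.2).ncard) (Set.toFinite _) hE
    by_cases TY : (∀ q, ¬ y < q) ∨ ∀ v, ¬ y ≤ v → ¬ v ≤ y →
        ∃ w, w ≠ y ∧ w ≠ x ∧ (∀ q, y < q → w ≤ q) ∧ ¬ w ≤ v
    · by_cases TX : (∀ d, ¬ d < x) ∨ ∀ u, ¬ u ≤ x → ¬ x ≤ u →
          ∃ w, w ≠ x ∧ w ≠ y ∧ (∀ d, d < x → d ≤ w) ∧ ¬ u ≤ w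
      · have hne : x ≠ y := fun h => hxy h.le
        exact ⟨x, y, hne, rem_free hne TX TY fun h => absurd h hxy⟩
      · obtain ⟨p, q, h1, h2⟩ := trouble (α := αᵒᵈ) (fun z => (hall z).symm) (x := y) (y := x)
          hx hxy (fun x' h1 h2 => by
            have := hmin (x', y) ⟨h1, hy, h2⟩
            exact Nat.le_of_add_le_add_right this) TX
        exact ⟨p, q, h1, Rem.of_dual h2⟩
    · exact trouble hall hy hxy (fun y' h1 h2 => by
        have := hmin (x, y') ⟨hx, h1, h2⟩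
        exact Nat.le_of_add_le_add_left this) TY
  · have hE' : ∀ x y : α, LF x → HF y → x ≤ y := fun x y h1 h2 => by
      by_contra h
      exact hE ⟨(x, y), h1, h2, h⟩
    obtain ⟨z₀⟩ : Nonempty α := Fintype.card_pos_iff.1 (by omega)
    obtain ⟨a, -, ha⟩ := exists_min_le z₀
    obtain ⟨c, -, hc⟩ := exists_max_ge z₀
    have key : ∀ z, z ≤ c ∨ a ≤ z := fun z =>
      (hall z).imp (fun h => hE' z c h (Or.inl hc)) fun h => hE' a z (Or.inl ha) h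
    have hne : a ≠ c := by
      rintro rfl
      refine not_all_eq h3 a fun z => ?_
      rcases key z with h | h
      · exact h.eq_or_lt.resolve_right (ha z)
      · exact (h.eq_or_lt.resolve_right (hc z)).symm
    exact ⟨a, c, hne, rem_free hne (Or.inl ha) (Or.inl hc) fun _ z => by
      rcases key z with h | h <;> tauto⟩

/-- a point with at most one lower cover -/
lemma lf_of_cover {x : α} (h : ∀ p p', p ⋖ x → p' ⋖ x → p = p') : LF x := by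
  by_cases h0 : ∀ d, ¬ d < x
  · exact Or.inl h0
  push Not at h0
  obtain ⟨d₀, hd₀⟩ := h0
  obtain ⟨p, -, hp⟩ := exists_le_covBy_of_lt hd₀
  refine Or.inr fun u e1 _ => ⟨p, hp.lt.ne, fun d hd => ?_, fun e => e1 (e.trans hp.le)⟩
  obtain ⟨p', h1, h2⟩ := exists_le_covBy_of_lt hd
  exact h p' p h2 hp ▸ h1

omit [Fintype α] in
/-- a point that is the greatest lower bound of the points above it -/
lemma lf_of_isGLB {x : α} (h : IsGLB (Set.Ioi x) x) : LF x := by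
  refine Or.inr fun u e1 _ => ?_
  by_contra hc
  push Not at hc
  exact e1 (h.2 fun q hq => hc q (ne_of_gt hq) fun d hd => (hd.trans hq).le)

/-- every point of a finite lattice is of one of the two kinds -/
lemma lattice_no_tight {β : Type} [Fintype β] [Lattice β] (x : β) : LF x ∨ HF x := by
  classical
  by_cases h0 : ∀ d, ¬ d < x
  · exact Or.inl (Or.inl h0)
  push Not at h0
  obtain ⟨d₀, hd₀⟩ := h0
  have hne : (univ.filter fun d => d < x).Nonempty := ⟨d₀, by simpa using hd₀⟩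
  have h1 : ∀ d, d < x → d ≤ (univ.filter fun d => d < x).sup' hne id := fun d hd =>
    le_sup' id (by simpa using hd)
  have h2 : ∀ w, (∀ d, d < x → d ≤ w) → (univ.filter fun d => d < x).sup' hne id ≤ w :=
    fun w hw => sup'_le _ _ fun d hd => hw d (by simpa using hd)
  by_cases h3 : (univ.filter fun d => d < x).sup' hne id = x
  · exact Or.inr (lf_of_isGLB (α := βᵒᵈ) ⟨fun d hd => le_of_lt hd, fun w hw => by
      have := h2 w fun d hd => hw hd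
      rwa [h3] at this⟩)
  · exact Or.inl (Or.inr fun u e1 _ => ⟨_, h3, h1, fun e => e1 (e.trans (h2 x fun d hd => hd.le))⟩)

theorem rem_of_no_W (h3 : 3 ≤ Fintype.card α)
    (hW : ¬ ∃ z m c a v : α, m < z ∧ m < c ∧ a < c ∧ a < v ∧ ¬ a ≤ z ∧ ¬ m ≤ v ∧ ¬ z ≤ c ∧ ¬ v ≤ c ∧
      (∀ d, ¬ d < m) ∧ (∀ d, ¬ d < a) ∧ ∀ q, ¬ c < q) :
    ∃ p q : α, p ≠ q ∧ Rem p q := by
  obtain ⟨z₀⟩ : Nonempty α := Fintype.card_pos_iff.1 (by omega)
  obtain ⟨c, -, hc⟩ := exists_max_ge z₀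
  by_cases hm : ∀ m, (∀ d, ¬ d < m) → m ≤ c
  · obtain ⟨a, ha, hmax⟩ := Set.exists_max_image {m : α | ∀ d, ¬ d < m}
      (fun m => {z | m ≤ z ∧ ¬ z ≤ c}.ncard) (Set.toFinite _)
      ((exists_min_le z₀).imp fun m h => h.2)
    have key : ∀ z, z ≤ c ∨ a ≤ z := by
      intro z
      by_contra hz
      rw [not_or] at hz
      obtain ⟨m, h1, h2⟩ := exists_min_le z
      have h4 : ¬ {z | a ≤ z ∧ ¬ z ≤ c} ⊆ {z | m ≤ z ∧ ¬ z ≤ c} := fun h =>
        absurd (hmax m h2) (not_le.2 (Set.ncard_lt_ncard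
          ⟨h, fun h' => hz.2 (h' ⟨h1, hz.1⟩).1⟩ (Set.toFinite _)))
      obtain ⟨v, ⟨e1, e2⟩, e3⟩ := Set.not_subset.1 h4
      have e4 : ¬ m ≤ v := fun h => e3 ⟨h, e2⟩
      have e5 : ∀ {p w : α}, p ≤ c → p ≤ w → ¬ w ≤ c → p < w ∧ p < c := fun h1 h2 h3 =>
        ⟨h2.lt_of_ne fun h => h3 (h ▸ h1), h1.lt_of_ne fun h =>
          h3 ((h ▸ h2).eq_or_lt.resolve_right (hc _)).ge⟩
      exact hW ⟨z, m, c, a, v, (e5 (hm m h2) h1 hz.1).1, (e5 (hm m h2) h1 hz.1).2,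
        (e5 (hm a ha) e1 e2).2, (e5 (hm a ha) e1 e2).1, hz.2, e4, hz.1, e2, h2, ha, hc⟩
    have hne : a ≠ c := by
      rintro rfl
      refine not_all_eq h3 a fun z => ?_
      rcases key z with h | h
      · exact h.eq_or_lt.resolve_right (ha z)
      · exact (h.eq_or_lt.resolve_right (hc z)).symm
    exact ⟨a, c, hne, rem_free hne (Or.inl ha) (Or.inl hc) fun _ z => by
      rcases key z with h | h <;> tauto⟩
  · push Not at hm
    obtain ⟨m, h1, h2⟩ := hm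
    have hne : m ≠ c := fun h => h2 h.le
    exact ⟨m, c, hne, rem_free hne (Or.inl h1) (Or.inl hc) fun h => absurd h h2⟩

end Pool.Agent.MP_cfa48c_co.H41
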