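import Pool.Agent.MP_cfa48c_co.H41.Main
import Pool.Agent.MP_cfa48c_co.H41.Low

/-! One free point gives a removable pair. -/

namespace Pool.Agent.MP_cfa48c_co.H41

variable {α : Type} [Fintype α] [PartialOrder α]

omit [Fintype α] in
/-- `a` is minimal, `a < y`, and `y` is low-free once `a` is deleted -/
def LowP (a y : α) : Prop :=
  (∀ d, ¬ d < a) ∧ a < y ∧
    ∀ u, ¬ u ≤ y → ¬ y ≤ u → ∃ w, w ≠ y ∧ (∀ d, d < y → d ≠ a → d ≤ w) ∧ ¬ u ≤ w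

omit [Fintype α] in
/-- the dual notion -/
def HighP (a y : α) : Prop :=
  (∀ q, ¬ a < q) ∧ y < a ∧
    ∀ u, ¬ y ≤ u → ¬ u ≤ y → ∃ w, w ≠ y ∧ (∀ q, y < q → q ≠ a → w ≤ q) ∧ ¬ w ≤ u

theorem rem_of_one (h3 : 3 ≤ Fintype.card α)
    (h : (∀ x : α, (∀ d, ¬ d < x) ∨ ∀ q, ¬ x < q) ∨ (∃ a y : α, LowP a y) ∨ ∃ a y : α, HighP a y) :
    ∃ p q : α, p ≠ q ∧ Rem p q := by
  rcases h with h | ⟨a, y, h1, h2, h4⟩ | ⟨a, y, h1, h2, h4⟩
  · exact rem_of_no_tight h3 fun z => (h z).imp Or.inl Or.inl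
  · exact ⟨a, y, h2.ne, rem_low h1 h2 h4⟩
  · exact ⟨a, y, h2.ne', rem_high h1 h2 h4⟩

/-- a low-free point that is not minimal -/
lemma lowP_of_LF {y : α} (h : LF y) (hy : ¬ ∀ d, ¬ d < y) : ∃ a, LowP a y := by
  have h' := h.resolve_left hy
  push Not at hy
  obtain ⟨d, hd⟩ := hy
  obtain ⟨a, h1, h2⟩ := exists_min_le d
  refine ⟨a, h2, h1.trans_lt hd, fun u e1 e2 => ?_⟩
  obtain ⟨w, g1, g2, g3⟩ := h' u e1 e2
  exact ⟨w, g1, fun d hd _ => g2 d hd, g3⟩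

/-- the class contains all posets without tight points -/
lemma one_of_no_tight (hall : ∀ z : α, LF z ∨ HF z) :
    (∀ x : α, (∀ d, ¬ d < x) ∨ ∀ q, ¬ x < q) ∨ (∃ a y : α, LowP a y) ∨ ∃ a y : α, HighP a y := by
  by_cases h : ∀ x : α, (∀ d, ¬ d < x) ∨ ∀ q, ¬ x < q
  · exact Or.inl h
  obtain ⟨x, hx⟩ := not_forall.1 h
  rw [not_or] at hx
  rcases hall x with h1 | h1
  · obtain ⟨a, ha⟩ := lowP_of_LF h1 hx.1
    exact Or.inr (Or.inl ⟨a, x, ha⟩)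
  · obtain ⟨a, ha⟩ := lowP_of_LF (α := αᵒᵈ) h1 hx.2
    exact Or.inr (Or.inr ⟨a, x, ha⟩)

/-- a point with two lower covers, one of them minimal -/
lemma lowP_of_two {a p y : α} (ha : ∀ d, ¬ d < a) (hay : a < y) (hp : p < y)
    (h : ∀ c, c ⋖ y → c = a ∨ c = p) : LowP a y := by
  refine ⟨ha, hay, fun u e1 _ => ⟨p, hp.ne, fun d hd hda => ?_, fun e => e1 (e.trans hp.le)⟩⟩
  obtain ⟨c, h1, h2⟩ := exists_le_covBy_of_lt hd
  rcases h c h2 with rfl | rfl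
  · exact absurd (h1.lt_of_ne hda) (ha d)
  · exact h1

end Pool.Agent.MP_cfa48c_co.H41
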